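import Mathlib

namespace Pool.Agent.Results.MP_8b9ec4_lc.Q2

open MeasureTheory Set Cardinal unitInterval

/-- Naively Haar null subsets of a group with its Borel sigma-algebra. -/
def NHN {G : Type} [Group G] [MeasurableSpace G] (X : Set G) : Prop :=
  ∃ μ : Measure G, IsProbabilityMeasure μ ∧ ∀ g h : G, μ ((fun x => g * x * h) '' X) = 0

/-- `non(N)`: least size of a subset of the unit interval of positive outer Lebesgue measure. -/
noncomputable def nonN : Cardinal := sInf {c | ∃ Y : Set I, volume Y ≠ 0 ∧ #Y = c}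

/-- `cov(N)`: least size of a family of Lebesgue null sets covering the unit interval. -/
noncomputable def covN : Cardinal :=
  sInf {c | ∃ F : Set (Set I), (∀ A ∈ F, volume A = 0) ∧ ⋃₀ F = Set.univ ∧ #F = c}

theorem result (h : nonN < covN) (G : Type) [Group G] [TopologicalSpace G] [IsTopologicalGroup G]
    [PolishSpace G] [MeasurableSpace G] [BorelSpace G] (S : Set G) : ¬ (NHN S ∧ NHN Sᶜ) := by
  rintro ⟨⟨μ, hμ, h1⟩, ⟨ν, hν, h2⟩⟩
  obtain ⟨f, hf, rfl⟩ := μ.exists_measurable_map_eq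
  obtain ⟨g, hg, rfl⟩ := ν.exists_measurable_map_eq
  obtain ⟨Y, hY, hY'⟩ : nonN ∈ {c | ∃ Y : Set I, volume Y ≠ 0 ∧ #Y = c} :=
    csInf_mem ⟨_, Set.univ, by simp, rfl⟩
  let A : I → Set I := fun t => f ⁻¹' ((fun x => 1 * x * (g t)⁻¹) '' S)
  have hA : ⋃₀ (A '' Y) ≠ Set.univ := fun hU => by
    refine (h.trans_le (csInf_le' ⟨A '' Y, ?_, hU, rfl⟩)).not_ge (hY' ▸ mk_image_le)
    rintro _ ⟨t, -, rfl⟩
    exact le_zero_iff.mp ((Measure.le_map_apply hf.aemeasurable _).trans (h1 _ _).le)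
  obtain ⟨s, hs⟩ := (ne_univ_iff_exists_notMem _).mp hA
  refine hY (measure_mono_null (fun t ht => ?_) (le_zero_iff.mp
    ((Measure.le_map_apply hg.aemeasurable _).trans (h2 (f s)⁻¹ 1).le)))
  exact ⟨f s * g t, fun hS => hs ⟨A t, ⟨t, ht, rfl⟩, f s * g t, hS, by simp⟩, by simp⟩

end Pool.Agent.Results.MP_8b9ec4_lc.Q2
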